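import Pool.Agent.Lib.helper21.Vass

set_option autoImplicit false
set_option linter.unusedSimpArgs false
set_option linter.unusedVariables false

/-! Coloured pumping for Petri nets and pushdown runs. -/

namespace Pool.Agent.H.MP_e3bf5d_lc

open Relation Pool.Agent.Lib.helper21.Vass Multiset Sum

theorem cvass {α C : Type} [Finite α] [Fintype C] [DecidableEq C] {Tr : Set (Multiset α × Multiset α)}
    (hT : Tr.Finite) (f : α → ℕ) (κ : α → C) (g : α → Prop)
    (hf : ∀ t ∈ Tr, (t.2.map f).sum ≤ (t.1.map f).sum ∧ ((t.1.map f).sum ≤ (t.2.map f).sum →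
      (∃ c, ∀ a ∈ t.1 + t.2, κ a = c) ∧ ∀ a ∈ t.2, g a))
    {S : Set (Multiset α)} (hS : S.Finite) {U V : ℕ → Multiset α}
    (hU : ∀ i, U i ∈ S) (h : ∀ i, ReflTransGen (St Tr) (U i) (V i)) : ∃ i j, i < j ∧ ∃ D,
      V j = V i + D ∧ (∀ a ∈ D, g a) ∧ ∀ y : C → ℕ,
        ReflTransGen (St Tr) (U i) (V i + ∑ c, y c • D.filter (κ · = c)) := by
  classical
  have k0 : ∀ W W', ReflTransGen (St Tr) W W' → (W'.map f).sum ≤ (W.map f).sum ∧
      ((W.map f).sum ≤ (W'.map f).sum → (∀ a, ¬ g a → W'.count a ≤ W.count a) ∧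
        ∀ c, ReflTransGen (St Tr) (W.filter (κ · = c)) (W'.filter (κ · = c))) := fun W W' h => by
    induction h with
    | refl => exact ⟨le_rfl, fun _ => ⟨fun _ _ => le_rfl, fun _ => .refl⟩⟩
    | tail _ q ih =>
      obtain ⟨t, a, X, rfl, rfl⟩ := q
      obtain ⟨b1, b2⟩ := hf t a
      simp only [Multiset.map_add, sum_add, count_add, filter_add] at ih ⊢
      refine ⟨by omega, fun l => ?_⟩
      obtain ⟨⟨c', b2⟩, b3⟩ := b2 (by omega)
      obtain ⟨c1, c2⟩ := ih.2 (by omega)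
      refine ⟨fun x q => by have := c1 x q; rw [count_eq_zero.2 fun e => q (b3 x e)]; omega, fun c => ?_⟩
      simp only [mem_add, or_imp, forall_and] at b2
      have := c2 c
      by_cases e : c' = c
      · rw [(filter_eq_self (s := t.1)).2 (e ▸ b2.1)] at this
        rw [(filter_eq_self (s := t.2)).2 (e ▸ b2.2)]
        exact this.tail ⟨t, a, _, rfl, rfl⟩
      · rw [(filter_eq_nil (s := t.1)).2 fun x q => by rwa [b2.1 x q]] at this
        rwa [(filter_eq_nil (s := t.2)).2 fun x q => by rwa [b2.2 x q]]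
  let H := fun D : Multiset α => (D.map f).sum = 0 ∧ ∀ a ∈ D, g a
  have k1 : ∀ W D E, ReflTransGen (St Tr) (W + D) (W + E) → H D → H E ∧ ∀ y : C → ℕ,
      ReflTransGen (St Tr) (W + ∑ c, y c • D.filter (κ · = c)) (W + ∑ c, y c • E.filter (κ · = c)) :=
    fun W D E h hD => by
      obtain ⟨a, b⟩ := k0 _ _ h
      simp only [Multiset.map_add, sum_add, count_add, filter_add, hD.1] at a b
      obtain ⟨b, c⟩ := b (by omega)
      refine ⟨⟨by omega, fun x q => by_contra fun q' => ?_⟩, fun y => ?_⟩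
      · have := b x q'
        have := count_pos.2 q
        rw [count_eq_zero.2 fun e => q' (hD.2 x e)] at *
        omega
      · induction (Finset.univ : Finset C) using Finset.induction with
        | empty => rfl
        | insert x s n ih =>
          have := add (c x) (W.filter (¬ κ · = x))
          rw [add_right_comm, add_right_comm _ (E.filter _), filter_add_not] at this
          rw [Finset.sum_insert n, Finset.sum_insert n, ← add_assoc, ← add_assoc]
          refine (add (pump this _) _).trans ?_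
          rw [add_right_comm W, add_right_comm W (y x • _)]
          exact add ih _
  let r := fun x y : (Multiset α × Multiset α) × Multiset α => x.1 = y.1 ∧ x.2 ≤ y.2
  have am : ∀ {ρ ρ'}, List.SublistForall₂ r ρ ρ' → ∀ {U V X D D'}, Run Tr U ρ V →
      Run Tr X ρ' (V + D') → ReflTransGen (St Tr) (U + D) X → H D → H D' ∧ ∀ y : C → ℕ,
        ReflTransGen (St Tr) (U + ∑ c, y c • D.filter (κ · = c))
          (V + ∑ c, y c • D'.filter (κ · = c)) := fun h => by
    induction h with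
    | nil => rintro _ _ _ _ _ ⟨⟩ a b; exact k1 _ _ _ (b.trans a.mem.1)
    | cons r _ ih =>
      rintro _ _ _ _ _ (_ | @⟨t, W, _, _, a, b⟩) (_ | ⟨-, c⟩) d k
      obtain ⟨rfl, E, rfl⟩ := r.imp_right exists_add_of_le
      obtain ⟨e1, e2⟩ := k1 _ _ E (by rwa [add_right_comm W _ E]) k
      exact (ih b c (add_right_comm W _ _ ▸ .refl) e1).imp_right fun e3 y => (e2 y).trans
        (.head ⟨t, a, _, add_right_comm .., add_right_comm ..⟩ (e3 y))
    | cons_right _ ih =>
      rintro _ _ _ _ _ a (_ | ⟨b, c⟩) d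
      exact ih a c (d.tail ⟨_, b, _, rfl, rfl⟩)
  have m : (Set.univ : Set (Multiset α)).PartiallyWellOrderedOn (· ≤ ·) := fun f =>
    (wellQuasiOrdered_le (α := α → ℕ) fun n a => (f n).1.count a).imp fun _ => Exists.imp fun _ =>
      And.imp_right Multiset.le_iff_count.2
  have : ∀ i, ∃ ρ, Run Tr (U i) ρ (V i) := fun i => by
    have := h i
    generalize U i = u at this
    induction this using ReflTransGen.head_induction_on with
    | refl => exact ⟨_, .nil _⟩
    | head a _ ih => obtain ⟨t, a, W, rfl, rfl⟩ := a; exact ih.elim fun _ b => ⟨_, .cons a b⟩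
  choose ρ hρ using this
  have : IsPreorder _ r := { refl := fun _ => ⟨rfl, le_rfl⟩
                             trans := fun _ _ _ a b => ⟨a.1.trans b.1, a.2.trans b.2⟩ }
  obtain ⟨i, j, l, a, b, c⟩ := ((hS.partiallyWellOrderedOn (r := Eq)).prod (m.prod
    (((hT.partiallyWellOrderedOn (r := Eq)).prod m).partiallyWellOrderedOn_sublistForall₂ r))).exists_lt
      (f := fun i => (U i, V i, ρ i)) fun i => ⟨hU i, trivial, fun x a => ⟨(hρ i).mem.2 x a, trivial⟩⟩
  obtain ⟨D, e⟩ := exists_add_of_le b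
  have := am c (D := 0) (hρ i) (Eq.subst e (hρ j)) (by rw [add_zero, show U i = U j from a])
    ⟨rfl, by simp⟩
  exact ⟨i, j, l, D, e, this.1.2, by simpa using this.2⟩

theorem cara {C : Type} [Fintype C] {n : ℕ} (b : C → Fin (n + 1) → ℕ) (a : C → ℕ)
    (h : ∀ j, ∑ c, b c j = ∑ c, b c 0) (h' : 0 < ∑ c, a c) : ∃ y : C → ℕ,
      (Finset.univ.filter (y · ≠ 0)).card ≤ n + 1 ∧ (∀ j, ∑ c, y c * b c j = ∑ c, y c * b c 0) ∧
        0 < ∑ c, y c * a c := by
  classical
  obtain ⟨y, ⟨y2, y3⟩, y4⟩ := (measure fun y : C → ℕ => (Finset.univ.filter (y · ≠ 0)).card).wf.has_min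
    {y | (∀ j, ∑ c, y c * b c j = ∑ c, y c * b c 0) ∧ 0 < ∑ c, y c * a c} ⟨1, by simpa using ⟨h, h'⟩⟩
  refine ⟨y, not_lt.1 fun l => ?_, y2, y3⟩
  let v : C → Fin (n + 1) ⊕ {c // ¬ y c ≠ 0} → ℤ := fun c =>
    Sum.elim (Fin.cons (a c) fun j => (b c j.succ : ℤ) - b c 0) fun d => if c = d then 1 else 0
  obtain ⟨z, z1, c0, z2⟩ := Fintype.not_linearIndependent_iff.1 fun q : LinearIndependent ℤ v => by
    have := q.fintype_card_le_finrank
    have := Finset.card_filter_add_card_filter_not (s := Finset.univ) (y · ≠ 0)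
    simp only [Module.finrank_pi, Fintype.card_sum, Fintype.card_fin, Fintype.card_subtype,
      Finset.card_univ] at *
    omega
  wlog z3 : 0 < z c0 generalizing z
  · exact this (-z) (by simp only [Pi.neg_apply, neg_smul, Finset.sum_neg_distrib, z1, neg_zero]) (by simpa) (by simpa using (not_lt.1 z3).lt_of_ne z2)
  obtain ⟨d, m1, m2⟩ := (Finset.univ.filter (0 < z ·)).exists_min_image (fun c => (y c / z c : ℚ))
    ⟨c0, by simpa⟩
  simp only [Finset.mem_filter, Finset.mem_univ, true_and] at m1 m2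
  have e0 : ∀ c, y c = 0 → z c = 0 := fun c q => by
    simpa [v] using congrFun z1 (inr ⟨c, by simpa⟩)
  have e1 : ∑ c, z c * a c = 0 := by simpa [v] using congrFun z1 (inl 0)
  have e2 : ∀ j, ∑ c, z c * b c j = ∑ c, z c * b c 0 := Fin.cases rfl fun j => by
    simpa [v, mul_sub, sub_eq_zero] using congrFun z1 (inl j.succ)
  have p : ∀ c, 0 ≤ z d * y c - y d * z c := fun c => by
    by_cases q : 0 < z c
    · have := (div_le_div_iff₀ (by exact_mod_cast m1) (by exact_mod_cast q)).1 (m2 c q)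
      rw [sub_nonneg, mul_comm (z d)]
      exact_mod_cast this
    · nlinarith [Int.natCast_nonneg (y c), Int.natCast_nonneg (y d)]
  have e : ∀ x : C → ℕ, ((∑ c, (z d * y c - y d * z c).toNat * x c : ℕ) : ℤ) =
      z d * (∑ c, y c * x c : ℕ) - y d * ∑ c, z c * x c := fun x => by
    simp [Int.toNat_of_nonneg (p _), sub_mul, Finset.mul_sum, mul_assoc]
  refine y4 (fun c => (z d * y c - y d * z c).toNat) ⟨fun j => Nat.cast_injective (R := ℤ) ?_,
    Int.natCast_pos.1 ?_⟩ (Finset.card_lt_card ⟨fun c => ?_, fun q => ?_⟩)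
  · rw [e (b · j), e (b · 0), y2, e2]
  · rw [e, e1]; simpa using mul_pos m1 (Int.natCast_pos.2 y3)
  · simp only [Finset.mem_filter, Finset.mem_univ, true_and]
    exact mt fun q => by simp [q, e0 c q]
  · simpa [mul_comm] using q (x := d) (by simpa using fun q => m1.ne' (e0 d q))

section
variable {R S Γ : Type} (top : R → Γ) (src tgt : R → S) (push : R → List Γ)

inductive Cp : S → List Γ → List R → S → Prop
  | nil (p) : Cp p [] [] p
  | cons {r α μ q} : Cp (tgt r) (push r ++ α) μ q → Cp (src r) (top r :: α) (r :: μ) q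

variable {top src tgt push}

theorem Cp.app {p α μ q β ν q'} (h : Cp top src tgt push p α μ q) (h' : Cp top src tgt push q β ν q') :
    Cp top src tgt push p (α ++ β) (μ ++ ν) q' := by
  induction h with
  | nil => exact h'
  | cons _ ih => exact .cons (List.append_assoc .. ▸ ih h')

def Ch (rk : S → ℕ) : S → List (S × Γ × S) → S → Prop
  | p, [], q => p = q
  | p, x :: l, q => x.1 = p ∧ rk p ≤ rk x.2.2 ∧ Ch rk x.2.2 l q

theorem Ch.sq {rk : S → ℕ} {l : List (S × Γ × S)} {q} : ∀ {p}, Ch rk p l q → rk p ≤ rk q ∧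
    (l.map fun x => (rk x.2.2 - rk x.1) ^ 2).sum ≤ (rk q - rk p) ^ 2 ∧
    ((rk q - rk p) ^ 2 ≤ (l.map fun x => (rk x.2.2 - rk x.1) ^ 2).sum → ∀ x ∈ l,
      (rk x.1 = rk p ∨ rk x.1 = rk q) ∧ (rk x.2.2 = rk p ∨ rk x.2.2 = rk q)) := by
  induction l with
  | nil => rintro _ rfl; simp
  | cons x l ih =>
    rintro _ ⟨rfl, a, b⟩
    obtain ⟨c, d, e⟩ := ih b
    obtain ⟨i, e1⟩ := Nat.exists_eq_add_of_le a
    obtain ⟨j, e2⟩ := Nat.exists_eq_add_of_le c
    simp only [List.map_cons, List.sum_cons, List.forall_mem_cons, show rk q - rk x.1 = i + j by omega,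
      show rk x.2.2 - rk x.1 = i by omega, show rk q - rk x.2.2 = j by omega] at d e ⊢
    refine ⟨by omega, by nlinarith, fun k => ?_⟩
    have : i = 0 ∨ j = 0 := mul_eq_zero.1 (by nlinarith)
    have k' := e (by rcases this with rfl | rfl <;> nlinarith)
    clear k d e
    exact ⟨⟨.inl trivial, by omega⟩, fun y q => by have := k' y q; omega⟩

theorem Ch.split {rk : S → ℕ} {l l' : List (S × Γ × S)} {q} : ∀ {p}, Ch rk p (l ++ l') q →
    ∃ m, Ch rk p l m ∧ Ch rk m l' q := by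
  induction l with
  | nil => exact fun h => ⟨_, rfl, h⟩
  | cons x l ih => exact fun h => (ih h.2.2).imp fun _ k => ⟨⟨h.1, h.2.1, k.1⟩, k.2⟩

theorem cpda [Finite R] [Fintype S] [DecidableEq S] [Finite Γ] (rk : S → ℕ)
    (hr : ∀ r, rk (src r) ≤ rk (tgt r)) {p Z} {μ : ℕ → List R} {q : ℕ → S}
    (h : ∀ i, Cp top src tgt push p [Z] (μ i) (q i)) : ∃ i j, i < j ∧ ∃ X : S × S → Multiset R,
      μ j = μ i + ∑ c, X c ∧ (∀ c, ∀ r ∈ X c, rk (src r) = rk (tgt r) ∧
        (rk (src r) = rk c.1 ∨ rk (src r) = rk c.2)) ∧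
      ∀ y : S × S → ℕ, ∃ ν, Cp top src tgt push p [Z] ν (q i) ∧ ν = μ i + ∑ c, y c • X c := by
  classical
  have ms : ∀ {A B : Type} (f : A → B) (g : S × S → Multiset A), map f (∑ c, g c) = ∑ c, map f (g c) :=
    fun f g => map_sum (mapAddMonoidHom f) g _
  let I := fun (c : S × S) (x : S × Γ × S) =>
    (rk x.1 = rk c.1 ∨ rk x.1 = rk c.2) ∧ (rk x.2.2 = rk c.1 ∨ rk x.2.2 = rk c.2)
  let cl := fun c x => ((inl x, if I c x then c else (x.1, x.2.2)) : ((S × Γ × S) ⊕ R) × S × S)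
  let Tr : Set (Multiset (((S × Γ × S) ⊕ R) × S × S) × Multiset (((S × Γ × S) ⊕ R) × S × S)) :=
    {t | ∃ r l m c, l.map (·.2.1) = push r ∧ Ch rk (tgt r) l m ∧ I c (src r, top r, m) ∧
      t = ({(inl (src r, top r, m), c)}, (inr r, c) ::ₘ ↑(l.map (cl c)))}
  have fT : Tr.Finite := by
    refine (Set.finite_iUnion fun r => ((List.finite_length_eq (S × Γ × S) (push r).length).prod
      Set.finite_univ).image fun x : _ × S × S × S => (({(inl (src r, top r, x.2.1), x.2.2)} :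
        Multiset _), (inr r, x.2.2) ::ₘ ↑(x.1.map (cl x.2.2)))).subset ?_
    rintro _ ⟨r, l, m, c, a, -, -, rfl⟩
    exact Set.mem_iUnion.2 ⟨r, (l, m, c), ⟨by simp [← a], trivial⟩, rfl⟩
  have k1 : ∀ p α μ q, Cp top src tgt push p α μ q → ∃ l : List (S × Γ × S), l.map (·.2.1) = α ∧
      Ch rk p l q ∧ ∀ L : List ((S × Γ × S) × S × S), L.map (·.1) = l → (∀ x ∈ L, I x.2 x.1) →
        ∃ T : Multiset (R × S × S), T.map (·.1) = μ ∧ ReflTransGen (St Tr)
          ↑(L.map fun x => ((inl x.1, x.2) : ((S × Γ × S) ⊕ R) × S × S))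
            (T.map fun x => (inr x.1, x.2)) := fun _ _ _ _ h => by
    induction h with
    | nil => exact ⟨[], rfl, rfl, fun L a _ => ⟨0, rfl, by rw [List.map_eq_nil_iff.1 a]; rfl⟩⟩
    | @cons r _ _ _ _ ih =>
      obtain ⟨_, a, b, c⟩ := ih
      obtain ⟨l, l', rfl, a1, rfl⟩ := List.map_eq_append_iff.1 a
      obtain ⟨m, b1, b2⟩ := b.split
      refine ⟨(src r, top r, m) :: l', rfl, ⟨rfl, (hr r).trans b1.sq.1, b2⟩, ?_⟩
      rintro (_ | ⟨⟨_, x⟩, L⟩) ⟨⟩ e
      obtain ⟨T, t1, t2⟩ := c (l.map (fun y => (y, (cl x y).2)) ++ L) (by simp [Function.comp_def])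
        (List.forall_mem_append.2 ⟨List.forall_mem_map.2 fun y _ => by
          simp only [cl]; split_ifs with u; exacts [u, ⟨.inl rfl, .inr rfl⟩], fun y u => e y (.tail _ u)⟩)
      refine ⟨(r, x) ::ₘ T, by simp [t1], .head ⟨_, ⟨r, l, m, x, a1, b1, e _ (.head _), rfl⟩,
        ↑(L.map fun x => ((inl x.1, x.2) : ((S × Γ × S) ⊕ R) × S × S)),
          by simp [← cons_coe, add_comm], rfl⟩ ?_⟩
      have := add t2 {(inr r, x)}
      rw [add_comm, add_comm (T.map _)] at this
      simpa [← coe_add, add_comm, Function.comp_def, cl, ← cons_coe] using this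
  have k2 : ∀ i, ∃ T : Multiset (R × S × S), T.map (·.1) = μ i ∧ ReflTransGen (St Tr)
      {(inl (p, Z, q i), p, q i)} (T.map fun x => (inr x.1, x.2)) := fun i => by
    obtain ⟨_ | ⟨⟨_, _, _⟩, _ | _⟩, ⟨⟩, ⟨rfl, -, e⟩, c⟩ := k1 _ _ _ _ (h i)
    cases e
    exact c [(_, _, q i)] rfl (by simp [I])
  choose T t1 t2 using k2
  obtain ⟨i, j, l, D, e, d1, d2⟩ := cvass fT (fun a => a.1.elim (fun x => (rk x.2.2 - rk x.1) ^ 2) 0)
    (·.2) (fun a => ∀ r, a.1 = inr r → rk (src r) = rk (tgt r) ∧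
      (rk (src r) = rk a.2.1 ∨ rk (src r) = rk a.2.2)) (by
      rintro _ ⟨r, l, m, c, -, a, b, rfl⟩
      obtain ⟨a1, a2, a3⟩ := a.sq
      have := hr r
      have s : (rk m - rk (tgt r)) ^ 2 ≤ (rk m - rk (src r)) ^ 2 := by gcongr
      simp only [map_cons, map_coe, sum_cons, sum_coe, map_singleton, sum_singleton, List.map_map,
        Function.comp_def, cl, elim_inl, elim_inr, Pi.zero_apply, zero_add]
      refine ⟨a2.trans s, fun k => ?_⟩
      have s' : rk (src r) = rk (tgt r) := by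
        have := (Nat.pow_le_pow_iff_left two_ne_zero).1 (k.trans a2); omega
      refine ⟨⟨c, ?_⟩, by simpa [s'] using b.1⟩
      have : ∀ x ∈ l, I c x := fun x u => by
        have := a3 (s.trans k) x u; simp only [I] at b ⊢; omega
      simp +contextual [or_imp, forall_and, this])
    (Set.finite_range fun q => {(inl (p, Z, q), p, q)}) (fun i => ⟨q i, rfl⟩) t2
  have : CanLift (((S × Γ × S) ⊕ R) × S × S) (R × S × S) (fun x => (inr x.1, x.2))
    fun y => ∃ x : R × S × S, (inr x.1, x.2) = y := ⟨fun _ => id⟩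
  lift D to Multiset (R × S × S) using fun y a =>
    (mem_map.1 (e ▸ mem_add.2 (.inr a))).imp fun _ => And.right
  rw [← Multiset.map_add, map_eq_map fun _ _ => by simp +contextual [Prod.ext_iff]] at e
  refine ⟨i, j, l, fun c => (D.filter (·.2 = c)).map (·.1), ?_, fun c r a => ?_, fun y => ?_⟩
  · rw [← t1, ← t1, e, Multiset.map_add, ← ms]
    congr 2
    ext a
    simp [Multiset.count_sum', count_filter]
  · obtain ⟨x, a', rfl⟩ := mem_map.1 a
    clear a
    obtain ⟨a, rfl⟩ := mem_filter.1 a'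
    exact d1 _ (mem_map_of_mem _ a) _ rfl
  let ok := fun (a : ((S × Γ × S) ⊕ R) × S × S) (M : Multiset R) => a.1.elim
    (fun x => ∃ ν, Cp top src tgt push x.1 [x.2.1] ν x.2.2 ∧ M = ν) (M = {·})
  have k3 : ∀ c l p q L, Ch rk p l q → Rel ok ↑(l.map (cl c)) L →
      ∃ ν, Cp top src tgt push p (l.map (·.2.1)) ν q ∧ L.sum = ν := fun c l => by
    induction l with
    | nil => rintro _ _ _ rfl a; exact ⟨[], .nil _, by rw [rel_zero_left.1 a]; rfl⟩
    | cons x l ih =>
      rintro _ q _ ⟨rfl, -, a⟩ b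
      obtain ⟨_, L, ⟨ν, b1, rfl⟩, b2, rfl⟩ := (rel_cons_left (a := cl c x) (as := ↑(l.map (cl c)))).1 b
      obtain ⟨ν', c1, c2⟩ := ih _ q L a b2
      exact ⟨_, b1.app c1, by simp [c2]⟩
  have k4 : ∀ U (W : Multiset (R × S × S)), ReflTransGen (St Tr) U (W.map fun x => (inr x.1, x.2)) →
      ∃ L, Rel ok U L ∧ L.sum = W.map (·.1) := fun U W h => by
    induction h using ReflTransGen.head_induction_on with
    | refl => exact ⟨W.map ({·.1}), by simp [rel_map, ok, rel_refl_of_refl_on], by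
        rw [← sum_map_singleton (W.map (·.1)), Multiset.map_map]; rfl⟩
    | head a _ ih =>
      obtain ⟨_, ⟨r, l, m, c, a1, a2, -, rfl⟩, X, rfl, rfl⟩ := a
      obtain ⟨_, b, e⟩ := ih
      obtain ⟨L, _, b1, b2, rfl⟩ := rel_add_left.1 b
      dsimp only at b2
      obtain ⟨_, L', rfl, b3, rfl⟩ := rel_cons_left.1 b2
      obtain ⟨ν, c1, c2⟩ := k3 _ _ _ _ _ a2 b3
      exact ⟨L + {↑(r :: ν)}, b1.add (.cons ⟨_, .cons (by simpa [a1] using c1), rfl⟩ .zero), by
        simpa [c2, ← cons_coe] using e⟩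
  obtain ⟨_, a, b⟩ := k4 {(inl (p, Z, q i), p, q i)} (T i + ∑ c, y c • D.filter (·.2 = c)) (by
    simpa [ms, Multiset.map_nsmul, filter_map, Function.comp_def] using d2 y)
  obtain ⟨_, _, ⟨ν, a1, rfl⟩, a2, rfl⟩ := rel_cons_left.1 a
  exact ⟨ν, a1, by simpa [rel_zero_left.1 a2, t1, ms, Multiset.map_nsmul] using b⟩
end

end Pool.Agent.H.MP_e3bf5d_lc
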